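import Pool.Agent.J4H20.TR.Stm

set_option autoImplicit false

/-! # Project TR2, (R2): stability of the number of real roots -/

namespace Pool.Agent.J4H97.TR

open Polynomial Filter Topology
open Pool.Agent.J4H20.TR

theorem compact_lower {K : Set ℝ} (hK : IsCompact K) (f : ℝ[X]) (h : ∀ x ∈ K, f.eval x ≠ 0) :
    ∃ c : ℝ, 0 < c ∧ ∀ x ∈ K, c ≤ |f.eval x| := by
  rcases K.eq_empty_or_nonempty with rfl | hne
  · exact ⟨1, one_pos, fun x hx => absurd hx (Set.notMem_empty x)⟩
  · obtain ⟨x0, hx0, hmin⟩ := hK.exists_isMinOn hne (f := fun x => |f.eval x|)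
      (by fun_prop)
    exact ⟨|f.eval x0|, abs_pos.2 (h x0 hx0), fun x hx => hmin hx⟩

theorem close (n : ℕ) {R ε : ℝ} (hR : 0 ≤ R) (hε : 0 < ε) : ∃ δ : ℝ, 0 < δ ∧ ∀ P Q : ℝ[X],
    P.natDegree ≤ n → Q.natDegree ≤ n → (∀ j, |Q.coeff j - P.coeff j| < δ) →
    ∀ x : ℝ, |x| ≤ R → |Q.eval x - P.eval x| < ε := by
  have hB : 0 < ((n : ℝ) + 1) * (R + 1) ^ n := by positivity
  refine ⟨ε / (((n : ℝ) + 1) * (R + 1) ^ n), by positivity, fun P Q hP hQ h x hx => ?_⟩
  rw [eval_eq_sum_range' (Nat.lt_succ_of_le hP), eval_eq_sum_range' (Nat.lt_succ_of_le hQ),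
    ← Finset.sum_sub_distrib]
  refine (Finset.abs_sum_le_sum_abs _ _).trans_lt ?_
  have h1 : ∀ j ∈ Finset.range (n + 1), |Q.coeff j * x ^ j - P.coeff j * x ^ j| <
      ε / (((n : ℝ) + 1) * (R + 1) ^ n) * (R + 1) ^ n := by
    intro j hj
    rw [Finset.mem_range] at hj
    rw [← sub_mul, abs_mul, abs_pow]
    have h2 : |x| ^ j ≤ (R + 1) ^ n :=
      (pow_le_pow_left₀ (abs_nonneg x) (by linarith) j).trans
        (pow_le_pow_right₀ (by linarith) (by omega))
    have h3 : 0 < (R + 1) ^ n := by positivity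
    calc |Q.coeff j - P.coeff j| * |x| ^ j ≤ |Q.coeff j - P.coeff j| * (R + 1) ^ n :=
          mul_le_mul_of_nonneg_left h2 (abs_nonneg _)
      _ < _ := mul_lt_mul_of_pos_right (h j) h3
  refine (Finset.sum_lt_sum_of_nonempty ⟨0, by simp⟩ h1).trans_le ?_
  rw [Finset.sum_const, Finset.card_range, nsmul_eq_mul]
  push_cast
  rw [show ((n : ℝ) + 1) * (ε / (((n : ℝ) + 1) * (R + 1) ^ n) * (R + 1) ^ n) = ε by
    field_simp]

/-- Rolle -/
theorem rolle (f : ℝ[X]) {a b : ℝ} (hab : a < b) (ha : f.eval a = f.eval b) :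
    ∃ c, a < c ∧ c < b ∧ (derivative f).eval c = 0 := by
  obtain ⟨c, hc, h⟩ := exists_hasDerivAt_eq_zero (f := fun x => f.eval x)
    (f' := fun x => (derivative f).eval x) hab (by fun_prop) ha (fun x _ => f.hasDerivAt x)
  exact ⟨c, hc.1, hc.2, h⟩

/-- the values at the end points of an interval around a root without critical points -/
theorem ends (f : ℝ[X]) {z η : ℝ} (hη : 0 < η) (hz : f.eval z = 0)
    (h : ∀ x, |x - z| ≤ η → (derivative f).eval x ≠ 0) :
    f.eval (z - η) * f.eval (z + η) < 0 := by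
  have hmvt : ∀ a b : ℝ, a < b → ∃ c, a < c ∧ c < b ∧
      f.eval b - f.eval a = (derivative f).eval c * (b - a) := by
    intro a b hab
    obtain ⟨c, hc, h⟩ := exists_hasDerivAt_eq_slope (fun x => f.eval x)
      (fun x => (derivative f).eval x) hab (by fun_prop) (fun x _ => f.hasDerivAt x)
    refine ⟨c, hc.1, hc.2, ?_⟩
    rw [h, div_mul_cancel₀]
    linarith
  obtain ⟨c, hc1, hc2, hc⟩ := hmvt (z - η) z (by linarith)
  obtain ⟨d, hd1, hd2, hd⟩ := hmvt z (z + η) (by linarith)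
  rw [hz] at hc hd
  have hcz := h c (by rw [abs_le]; constructor <;> linarith)
  have hdz := h d (by rw [abs_le]; constructor <;> linarith)
  have hcd : 0 < (derivative f).eval c * (derivative f).eval d := by
    by_contra hneg
    push Not at hneg
    have hlt : (derivative f).eval c * (derivative f).eval d < 0 :=
      lt_of_le_of_ne hneg (mul_ne_zero hcz hdz)
    have hcd' : c ≤ d := by linarith
    have hcont : ContinuousOn (fun x => (derivative f).eval x) (Set.Icc c d) := by fun_prop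
    have h0 : ∃ x ∈ Set.Icc c d, (derivative f).eval x = 0 := by
      rcases mul_neg_iff.1 hlt with ⟨h1, h2⟩ | ⟨h1, h2⟩
      · have := intermediate_value_Icc' hcd' hcont
        exact this ⟨h2.le, h1.le⟩
      · have := intermediate_value_Icc hcd' hcont
        exact this ⟨h1.le, h2.le⟩
    obtain ⟨x, hx, hx0⟩ := h0
    exact h x (by rw [abs_le]; constructor <;> linarith [hx.1, hx.2]) hx0
  have h1 : f.eval (z - η) = -((derivative f).eval c * η) := by linarith
  have h2 : f.eval (z + η) = (derivative f).eval d * η := by linarith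
  rw [h1, h2]
  have h3 : 0 < η * η := by positivity
  nlinarith

theorem sign_close {a b a' b' μ : ℝ} (h : a * b < 0) (ha : μ ≤ |a|) (hb : μ ≤ |b|)
    (ha' : |a' - a| < μ) (hb' : |b' - b| < μ) : a' * b' < 0 := by
  rcases mul_neg_iff.1 h with ⟨h1, h2⟩ | ⟨h1, h2⟩
  · rw [abs_of_pos h1] at ha
    rw [abs_of_neg h2] at hb
    rw [abs_lt] at ha' hb'
    exact mul_neg_of_pos_of_neg (by linarith) (by linarith)
  · rw [abs_of_neg h1] at ha
    rw [abs_of_pos h2] at hb
    rw [abs_lt] at ha' hb'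
    exact mul_neg_of_neg_of_pos (by linarith) (by linarith)

theorem root_bound (P : ℝ[X]) : ∃ R : ℝ, 0 < R ∧ ∀ Q : ℝ[X], Q.Monic → Q.natDegree = P.natDegree →
    (∀ j, |Q.coeff j - P.coeff j| < 1) → ∀ x : ℝ, Q.eval x = 0 → |x| < R := by
  set A : NNReal := (Finset.range P.natDegree).sup fun j => ‖P.coeff j‖₊ with hA
  refine ⟨A + 1 + 1, by positivity, fun Q hQ hd hc x hx => ?_⟩
  have h1 : ‖x‖₊ < Q.cauchyBound := IsRoot.norm_lt_cauchyBound hQ.ne_zero hx
  have h2 : Q.cauchyBound ≤ A + 1 + 1 := by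
    rw [cauchyBound, hQ.leadingCoeff, nnnorm_one, div_one, hd]
    refine add_le_add_left ?_ 1
    refine Finset.sup_le fun j hj => ?_
    have h3 : ‖P.coeff j‖₊ ≤ A := Finset.le_sup (f := fun j => ‖P.coeff j‖₊) hj
    have h4 : ‖Q.coeff j‖₊ ≤ ‖P.coeff j‖₊ + 1 := by
      rw [← NNReal.coe_le_coe]
      push_cast
      rw [Real.norm_eq_abs, Real.norm_eq_abs]
      have := hc j
      have h5 := abs_sub_abs_le_abs_sub (Q.coeff j) (P.coeff j)
      linarith
    exact h4.trans (by gcongr)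
  have h3 := h1.trans_le h2
  have h4 : (‖x‖₊ : ℝ) < ((A + 1 + 1 : NNReal) : ℝ) := NNReal.coe_lt_coe.2 h3
  push_cast at h4
  rwa [Real.norm_eq_abs] at h4

/-- (R2) -/
theorem t_R2 : S_R2 := by
  intro P hP hsimp
  obtain ⟨R, hR, hRb⟩ := root_bound P
  have hZfin : {x : ℝ | P.eval x = 0}.Finite := by
    have := P.rootSet_finite ℝ
    refine this.subset fun x hx => ?_
    rw [mem_rootSet]
    exact ⟨hP.ne_zero, by simpa using hx⟩
  -- `η`
  have hη0 : ∀ᶠ η : ℝ in 𝓝[>] 0, ∀ z ∈ {x : ℝ | P.eval x = 0}, ∀ x, |x - z| ≤ η →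
      (derivative P).eval x ≠ 0 := by
    rw [Filter.eventually_all_finite hZfin]
    intro z hz
    have hopen : IsOpen {x : ℝ | (derivative P).eval x ≠ 0} :=
      isOpen_ne_fun (by fun_prop) continuous_const
    obtain ⟨r, hr, hball⟩ := Metric.isOpen_iff.1 hopen z (hsimp z hz)
    filter_upwards [Ioo_mem_nhdsGT hr] with η hη x hx
    exact hball (by rw [Metric.mem_ball, Real.dist_eq]; exact lt_of_le_of_lt hx hη.2)
  have hI : ∀ᶠ η : ℝ in 𝓝[>] 0, η ∈ Set.Ioo (0 : ℝ) 1 := Ioo_mem_nhdsGT one_pos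
  obtain ⟨η, hη1, hηlt⟩ := (hη0.and hI).exists
  have hηpos : 0 < η := hηlt.1
  have hη1' : η < 1 := hηlt.2
  have hZb : ∀ z, P.eval z = 0 → |z| < R := fun z hz => hRb P hP rfl (by simp) z hz
  have hsep : ∀ z z', P.eval z = 0 → P.eval z' = 0 → z < z' → 2 * η < z' - z := by
    intro z z' hz hz' hlt
    by_contra hcon
    push Not at hcon
    obtain ⟨c, hc1, hc2, hc⟩ := rolle P hlt (by rw [hz, hz'])
    by_cases h1 : c - z ≤ η
    · exact hη1 z hz c (by rw [abs_le]; constructor <;> linarith) hc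
    · push Not at h1
      exact hη1 z' hz' c (by rw [abs_le]; constructor <;> linarith) hc
  -- the compact sets
  set S : Set ℝ := Set.Icc (-(R + 1)) (R + 1) ∩ {x | ∀ z ∈ {x : ℝ | P.eval x = 0}, η ≤ |x - z|}
    with hS
  have hScpt : IsCompact S := by
    refine isCompact_Icc.inter_right ?_
    have : {x : ℝ | ∀ z ∈ {x : ℝ | P.eval x = 0}, η ≤ |x - z|} =
        ⋂ z ∈ {x : ℝ | P.eval x = 0}, {x | η ≤ |x - z|} := by
      ext x
      simp
    rw [this]
    exact isClosed_biInter fun z _ => isClosed_le continuous_const (by fun_prop)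
  obtain ⟨μ, hμ, hμS⟩ := compact_lower hScpt P (by
    rintro x ⟨_, hx⟩ h0
    have := hx x h0
    rw [sub_self, abs_zero] at this
    linarith)
  obtain ⟨m, hm, hmT⟩ := compact_lower (K := ⋃ z ∈ {x : ℝ | P.eval x = 0}, Metric.closedBall z η)
    (hZfin.isCompact_biUnion fun z _ => isCompact_closedBall z η) (derivative P) (by
    intro x hx
    rw [Set.mem_iUnion₂] at hx
    obtain ⟨z, hz, hxz⟩ := hx
    exact hη1 z hz x (by rwa [Metric.mem_closedBall, Real.dist_eq] at hxz))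
  set n := P.natDegree with hn
  obtain ⟨δ1, hδ1, hcl1⟩ := close n (R := R + 1) (by linarith) hμ
  obtain ⟨δ2, hδ2, hcl2⟩ := close n (R := R + 1) (by linarith) hm
  have hn1 : (0 : ℝ) < n + 1 := by positivity
  refine ⟨min (min 1 δ1) (δ2 / (n + 1)), lt_min (lt_min one_pos hδ1) (div_pos hδ2 hn1), ?_⟩
  intro Q hQ hd hcoef
  have hc1 : ∀ j, |Q.coeff j - P.coeff j| < 1 := fun j =>
    (hcoef j).trans_le ((min_le_left _ _).trans (min_le_left _ _))
  have hc2 : ∀ j, |Q.coeff j - P.coeff j| < δ1 := fun j =>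
    (hcoef j).trans_le ((min_le_left _ _).trans (min_le_right _ _))
  have hc3 : ∀ j, |(derivative Q).coeff j - (derivative P).coeff j| < δ2 := by
    intro j
    rw [coeff_derivative, coeff_derivative, ← sub_mul, abs_mul]
    by_cases hj : j + 1 ≤ n
    · have h1 : |Q.coeff (j + 1) - P.coeff (j + 1)| < δ2 / (n + 1) :=
        (hcoef _).trans_le (min_le_right _ _)
      have h2 : |((j : ℝ) + 1)| ≤ n + 1 := by
        rw [abs_of_pos (by positivity)]
        have : ((j + 1 : ℕ) : ℝ) ≤ n := Nat.cast_le.2 hj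
        push_cast at this
        linarith
      have h3 : 0 < |((j : ℝ) + 1)| := by positivity
      calc |Q.coeff (j + 1) - P.coeff (j + 1)| * |((j : ℝ) + 1)|
          < δ2 / (n + 1) * |((j : ℝ) + 1)| := mul_lt_mul_of_pos_right h1 h3
        _ ≤ δ2 / (n + 1) * (n + 1) := mul_le_mul_of_nonneg_left h2 (div_pos hδ2 hn1).le
        _ = δ2 := div_mul_cancel₀ _ hn1.ne'
    · rw [coeff_eq_zero_of_natDegree_lt (by omega), coeff_eq_zero_of_natDegree_lt (by omega)]
      simpa using hδ2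
  have hQ1 := hcl1 P Q le_rfl hd.le hc2
  have hQ2 := hcl2 (derivative P) (derivative Q) ((natDegree_derivative_le P).trans (Nat.sub_le _ _))
    ((natDegree_derivative_le Q).trans (by omega)) hc3
  have hend : ∀ z, P.eval z = 0 → ∀ s : ℝ, |s| = η → μ ≤ |P.eval (z + s)| ∧ |z + s| ≤ R + 1 := by
    intro z hz s hs
    have h1 := hZb z hz
    have h2 : |z + s| ≤ R + 1 := (abs_add_le z s).trans (by rw [hs]; linarith)
    refine ⟨hμS _ ⟨abs_le.1 h2, fun z' hz' => ?_⟩, h2⟩
    rcases lt_trichotomy z z' with h3 | h3 | h3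
    · have h4 := hsep z z' hz hz' h3
      have h5 := (abs_le.1 hs.le).2
      rw [abs_of_neg (by linarith)]
      linarith
    · rw [← h3, add_sub_cancel_left, hs]
    · have h4 := hsep z' z hz' hz h3
      have h5 := (abs_le.1 hs.le).1
      rw [abs_of_pos (by linarith)]
      linarith
  have hex : ∀ z, P.eval z = 0 → ∃ w, Q.eval w = 0 ∧ |w - z| ≤ η := by
    intro z hz
    have h1 := ends P hηpos hz (hη1 z hz)
    obtain ⟨h2, h3⟩ := hend z hz (-η) (by rw [abs_neg, abs_of_pos hηpos])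
    obtain ⟨h4, h5⟩ := hend z hz η (abs_of_pos hηpos)
    rw [← sub_eq_add_neg] at h2 h3
    have h6 := sign_close h1 h2 h4 (hQ1 _ h3) (hQ1 _ h5)
    have hcont : ContinuousOn (fun x => Q.eval x) (Set.Icc (z - η) (z + η)) := by fun_prop
    have hle : z - η ≤ z + η := by linarith
    have h0 : ∃ x ∈ Set.Icc (z - η) (z + η), Q.eval x = 0 := by
      rcases mul_neg_iff.1 h6 with ⟨h1, h2⟩ | ⟨h1, h2⟩
      · exact intermediate_value_Icc' hle hcont ⟨h2.le, h1.le⟩
      · exact intermediate_value_Icc hle hcont ⟨h1.le, h2.le⟩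
    obtain ⟨w, hw, hw0⟩ := h0
    exact ⟨w, hw0, by rw [abs_le]; constructor <;> linarith [hw.1, hw.2]⟩
  have hQ' : ∀ z, P.eval z = 0 → ∀ x, |x - z| ≤ η → (derivative Q).eval x ≠ 0 := by
    intro z hz x hx h0
    have h1 := hmT x (Set.mem_iUnion₂.2 ⟨z, hz, by
      rw [Metric.mem_closedBall, Real.dist_eq]; exact hx⟩)
    have h2 : |x| ≤ R + 1 := by
      have h3 := hZb z hz
      have h4 := abs_add_le (x - z) z
      rw [sub_add_cancel] at h4
      linarith
    have h3 := hQ2 x h2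
    rw [h0, zero_sub, abs_neg] at h3
    linarith
  have huniq : ∀ z, P.eval z = 0 → ∀ w w', Q.eval w = 0 → Q.eval w' = 0 → |w - z| ≤ η →
      |w' - z| ≤ η → w < w' → False := by
    intro z hz w w' hw hw' h1 h2 hlt
    obtain ⟨c, hc1, hc2, hc⟩ := rolle Q hlt (by rw [hw, hw'])
    rw [abs_le] at h1 h2
    exact hQ' z hz c (by rw [abs_le]; constructor <;> linarith) hc
  have hnear : ∀ w, Q.eval w = 0 → ∃ z, P.eval z = 0 ∧ |w - z| ≤ η := by
    intro w hw
    by_contra hcon
    push Not at hcon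
    have h1 := hRb Q hQ hd hc1 w hw
    have h2 : |w| ≤ R + 1 := by linarith
    have h3 := hμS w ⟨abs_le.1 h2, fun z hz => (hcon z hz).le⟩
    have h4 := hQ1 w h2
    rw [hw, zero_sub, abs_neg] at h4
    linarith
  symm
  choose f hf0 hfη using hex
  refine Set.ncard_congr (fun z hz => f z hz) (fun z hz => hf0 z hz) ?_ ?_
  · intro z z' hz hz' heq
    have h1 := hfη z hz
    have h2 := hfη z' hz'
    have heq' : f z hz = f z' hz' := heq
    rw [← heq'] at h2
    rw [abs_le] at h1 h2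
    rcases lt_trichotomy z z' with h3 | h3 | h3
    · have := hsep z z' hz hz' h3
      linarith
    · exact h3
    · have := hsep z' z hz' hz h3
      linarith
  · intro w hw
    obtain ⟨z, hz, hwz⟩ := hnear w hw
    refine ⟨z, hz, ?_⟩
    rcases lt_trichotomy (f z hz) w with h3 | h3 | h3
    · exact (huniq z hz _ _ (hf0 z hz) hw (hfη z hz) hwz h3).elim
    · exact h3
    · exact (huniq z hz _ _ hw (hf0 z hz) hwz (hfη z hz) h3).elim

end Pool.Agent.J4H97.TR
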